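import Pool.Agent.U265.MT.Met

set_option autoImplicit false

/-!
# Torsion in the class groups of all quadratic fields with discriminants near the multiples of a real number

The theorem gives the bound `|Cl_K[l]| ≤ |D_K| ^ (1/2 - 1/(2l) + ε)` (the bound which Ellenberg and Venkatesh derive from
the generalized Riemann hypothesis) for ALL large members of the sequences of quadratic fields with discriminants near
`w_n ξ`, for all real `ξ` but a set of small Hausdorff dimension, and for all `l ≥ 1` at the same time.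

(1) Let `w_n ≥ 1`, let the sums of the `w_n ^ (-t)` converge for all `t > τ` (`τ = 1/c` for `w_n = n ^ c`, `τ = 0` for
`w_n = 2 ^ n`), and let `κ < 1`, `k ≥ 1`. For all vectors `ξ ∈ ℝ^k` but a set of Hausdorff dimension at most
`(k - 1 + τ) / (1 - κ)` the following holds: for every `ε > 0`, all large `n`, ALL fundamental discriminants
`d_1, ..., d_k` with `|d_i - w_n ξ_i| ≤ w_n ^ κ`, all quadratic fields `K = ℚ(√(∏_{i ∈ S} d_i))`, `S ⊆ {1, ..., k}` (these are
all the quadratic subfields of `ℚ(√d_1, ..., √d_k)`), and all `l ≥ 1`: `|Cl_K[l]| ≤ |D_K| ^ (1/2 - 1/(2l) + ε)`.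

(2) For `k = 1` and `τ = 0` the exceptional set of the real numbers `ξ` has dimension `0`, for all `κ < 1` at the same time.

(3) The same for the discriminants near `ξ α ^ (w_n)`, in terms of `α > 1`: if `w_n / log n → ∞`, then for all `α > 1` but a
set of dimension `0` the bound holds for all `ξ ≠ 0` in a countable set and all `κ < 1`.

(4) The number of the tuples of fundamental discriminants `|d_i| ≤ X` for which one of the `2 ^ k - 1` fields does not have
this bound for some `l` is at most `C X ^ (k - 1 + ε)`.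

Proof. The large sieve of the starting files bounds the number of the tuples for which one of the character sums over
the primes `p ≤ y`, `(log X) ^ A ≤ y ≤ X ^ c`, is large, or one of the fields has a discriminant smaller than `X ^ ε`. For the
other tuples the squarefree products of `r` split primes up to `y = D ^ (1 / (2 l r) - δ)` are at least `D ^ (1 / (2 l) - ε)`
ideals (with `r` bounded), to which the argument of Ellenberg and Venkatesh is applied. The cubes with a bad tuple are the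
covers in the definition of the Hausdorff measure.
-/

namespace Pool.Agent.Results.MP_695920_nt.MetricTorsion

open Filter NumberField

/-- the fundamental discriminants (the discriminants of the quadratic fields, and `1`) -/
def Fund (d : ℤ) : Prop := (d % 4 = 1 ∧ Squarefree d) ∨
  ∃ m : ℤ, d = 4 * m ∧ (m % 4 = 2 ∨ m % 4 = 3) ∧ Squarefree m

/-- For all sets `S` of indices, all quadratic fields `K` generated by a square root of `∏_{i ∈ S} d_i`, and all `l ≥ 1`:
`|Cl_K[l]| ≤ |D_K| ^ (1/2 - 1/(2l) + ε)`. -/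
def TorsionBound {k : ℕ} (ε : ℝ) (d : Fin k → ℤ) : Prop :=
  ∀ (S : Finset (Fin k)) (K : Type) [Field K] [NumberField K], Module.finrank ℚ K = 2 →
    ∀ y : K, y ∉ Set.range (algebraMap ℚ K) → y ^ 2 = ((∏ i ∈ S, d i : ℤ) : K) →
      ∀ l : ℕ, 1 ≤ l →
        (Nat.card {c : ClassGroup (𝓞 K) // c ^ l = 1} : ℝ) ≤ |(discr K : ℝ)| ^ (1 / 2 - 1 / (2 * l) + ε : ℝ)

/-- For every `ε > 0` and all large `n` the bound holds for ALL tuples of fundamental discriminants `d_i` with
`|d_i - (x_n)_i| ≤ W_n ^ κ`. -/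
def Good {k : ℕ} (κ : ℝ) (W : ℕ → ℝ) (x : ℕ → Fin k → ℝ) : Prop :=
  ∀ ε : ℝ, 0 < ε → ∀ᶠ n : ℕ in atTop, ∀ d : Fin k → ℤ,
    (∀ i, Fund (d i) ∧ |(d i : ℝ) - x n i| ≤ W n ^ κ) → TorsionBound ε d

theorem result :
    (∀ (k : ℕ) (κ τ : ℝ), 1 ≤ k → κ < 1 → 0 ≤ τ → ∀ w : ℕ → ℝ, (∀ n, 1 ≤ w n) →
      (∀ t : ℝ, τ < t → Summable fun n => w n ^ (-t)) →
      dimH {ξ : Fin k → ℝ | ¬ Good κ w (fun n i => w n * ξ i)} ≤ ENNReal.ofReal ((k - 1 + τ) / (1 - κ))) ∧
    (∀ w : ℕ → ℝ, (∀ n, 1 ≤ w n) → (∀ t : ℝ, 0 < t → Summable fun n => w n ^ (-t)) →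
      dimH {ξ : ℝ | ¬ ∀ κ : ℝ, κ < 1 → Good κ w (fun n (_ : Fin 1) => w n * ξ)} = 0) ∧
    (∀ (Ξ : Set ℝ) (w : ℕ → ℝ), Ξ.Countable → (∀ ξ ∈ Ξ, ξ ≠ 0) → (∀ n, 1 ≤ w n) →
      Tendsto (fun n : ℕ => w n / Real.log n) atTop atTop →
      dimH {α : ℝ | 1 < α ∧ ¬ ∀ ξ ∈ Ξ, ∀ κ : ℝ, κ < 1 →
        Good κ (fun n => α ^ w n) (fun n (_ : Fin 1) => ξ * α ^ w n)} = 0) ∧
    (∀ (k : ℕ) (ε : ℝ), 1 ≤ k → 0 < ε → ∃ C : ℝ, ∀ X : ℕ, 1 ≤ X → ∀ T : Finset (Fin k → ℤ),
      (∀ d ∈ T, (∀ i, Fund (d i) ∧ |d i| ≤ X) ∧ ¬ TorsionBound ε d) →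
      (T.card : ℝ) ≤ C * (X : ℝ) ^ ((k : ℝ) - 1 + ε)) := by
  refine ⟨fun k κ τ hk hκ hτ w hw hs => Pool.Agent.U265.MT.dil_tor k hk κ τ hκ hτ w hw hs, ?_, ?_,
    fun k ε hk hε => Pool.Agent.U265.MT.count_tor k hk ε hε⟩
  · exact fun w hw hs => Pool.Agent.U265.MT.dil_zero w hw hs
  · exact fun Ξ w hΞ hΞ0 hw hlim => Pool.Agent.U265.MT.pow_zero' Ξ hΞ hΞ0 w hw hlim

end Pool.Agent.Results.MP_695920_nt.MetricTorsion
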