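import Pool.Agent.U218.CT.Grp

/-!
# Pointwise bounds for `ℓ`-torsion in class groups: all Galois groups without a cyclic normal subgroup

Ellenberg and Venkatesh bound `|Cl_K[ℓ]|` by `D^{1/2+ε} / M` if there are `M` prime ideals of small
norm which do not come from proper subfields.  For all fields `K` of degree `n` such a supply of
primes is not known; unconditional non-trivial bounds valid for every field with a given Galois group
are known for `ℓ ≤ 3` in small degrees and (Wang, Klüners-Wang) for nilpotent groups whose Sylow
subgroups are neither cyclic nor quaternion.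

Here the bound `|Cl_K[ℓ]| ≤ C D_K^{1/2 - 1/(2ℓn(n-1)) + ε}` is proved for every Galois field `K` of
degree `n` over `ℚ` whose Galois group has no cyclic normal subgroup besides the trivial one (for
instance no normal subgroup of prime order), and more generally for all number fields `K` of degree
`n` inside a Galois extension `L/ℚ` such that no element `g` of `G = Gal(L/ℚ)` has
`V ⊆ U⟨h⟩` for all conjugates `h` of `g`, where `U = Gal(L/K)` and `V` is some group with `U < V ≤ G`.

Idea: all integers of `K` whose conjugates are `≤ c D^{1/(n(n-1))}` lie in one and the same proper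
subfield `F`, the field they generate.  Every prime number `p` not dividing the discriminant has two
different primes of `K` above it with the same restriction to `F`, as the decomposition group of `p`
is cyclic.  So the primes `P` above the small primes `p`, of any residue degree, cannot be related by
`P_j^ℓ (p_i/P_i)^ℓ = (z)` with `z` in `F`, and the packing argument works with all small primes.
-/

set_option autoImplicit false

namespace Pool.Agent.Results.MP_695920_nt.PointwiseNoCyclicNormal

open NumberField Pool.Agent.U218.CT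

/-- `|Cl_K[l]| ≤ C D_K^{1/2 - 1/(2 l n (n-1)) + ε}` -/
def TorsionBound (n l : ℕ) (ε C : ℝ) (K : Type) [Field K] [NumberField K] : Prop :=
  (Nat.card {c : ClassGroup (𝓞 K) // c ^ l = 1} : ℝ) ≤
    C * |(discr K : ℝ)| ^ (1 / 2 - 1 / (2 * l * n * (n - 1)) + ε : ℝ)

theorem result (n : ℕ) (hn : 2 ≤ n) (l : ℕ) (hl : 1 ≤ l) (ε : ℝ) (hε : 0 < ε) : ∃ C : ℝ,
    (∀ (K : Type) [Field K] [NumberField K] [IsGalois ℚ K], Module.finrank ℚ K = n →
      (∀ N : Subgroup (K ≃ₐ[ℚ] K), N.Normal → IsCyclic N → N = ⊥) →
      TorsionBound n l ε C K) ∧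
    (∀ (K L : Type) [Field K] [NumberField K] [Field L] [NumberField L] [Algebra K L]
      [IsGalois ℚ L], Module.finrank ℚ K = n →
      (∀ V : Subgroup (L ≃ₐ[ℚ] L), fixer K L < V → ∀ g : L ≃ₐ[ℚ] L, ∃ x : L ≃ₐ[ℚ] L,
        ∃ v ∈ V, ∀ u ∈ fixer K L, ∀ k : ℕ, v ≠ u * (x * g * x⁻¹) ^ k) →
      TorsionBound n l ε C K) := by
  obtain ⟨C, hC⟩ := main_bound n hn l hl ε hε
  refine ⟨C, ?_, ?_⟩
  · intro K _ _ _ hK h
    exact hC K hK (twoPrimes_galois K h)
  · intro K L _ _ _ _ _ _ hK h
    exact hC K hK (twoPrimes (L := L) K h)

end Pool.Agent.Results.MP_695920_nt.PointwiseNoCyclicNormal
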