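import Pool.Agent.U218.CT.MainC
import Pool.Agent.U218.CT.GrpB
import Pool.Agent.U218.CT.Stark

/-!
# Pointwise bounds for `ℓ`-torsion in class groups: Galois groups with trivial centre, dihedral groups

For all `n ≥ 2` and `ℓ ≥ 1` the bound `|Cl_K[ℓ]| ≤ C D_K^{1/2 - δ}`, with
`δ = 1/(8 n² ((48 n² + 1) ℓ)^n)`, is proved for ALL Galois number fields `K` of degree `n` over `ℚ`
whose Galois group `G`

* has trivial centre (for example `S_3`, all dihedral groups of order `2m`, `m` odd, all Frobenius
  groups), or
* is a dihedral group of order `2m`, `m ≥ 3`, or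
* satisfies the following condition: for each normal subgroup `N` of prime order the elements `g`
  with `N ≤ ⟨g⟩` generate a proper subgroup of `G`.

Idea.  Let `F_T` be the field generated by all integers of `K` whose conjugates are `≤ T`, a Galois
subfield.  Along a sequence of scales `T_{i+1} = (150 T_i^{48n²})^ℓ`, `i ≤ n`, all powers
of the discriminant, the field does not change at one step: `F = F_{T_i} = F_{T_{i+1}} ≠ K`.  So the
discriminant of `F` is at most a small power of `X = T_i^{24n²}`, while all `z` with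
`P_j^ℓ (p_i/P_i)^ℓ = (z)`, `p_i, p_j ≤ X`, lie in `F`.  Let `N = Gal(K/F)`.  The primes `p` (above which
there are two primes of `K` with the same restriction to `F`) with `N` not in the decomposition group
can be used in the argument of Ellenberg and Venkatesh; the Frobenius elements of the other primes lie
in a proper normal subgroup `H ⊇ N`, they split completely in `E = K^H ⊆ F`.  By Stark's inequality
`-ζ_E'/ζ_E(σ) ≤ 1/(σ-1) + log|d_E|/2` at real `σ > 1` at least `√y` primes up to `y^12` do not split
completely in `E`, for all large `y ≥ |d_E|`.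
-/

set_option autoImplicit false

namespace Pool.Agent.Results.MP_695920_nt.PointwiseTrivialCentre

open NumberField Pool.Agent.U218.CT

theorem result (n : ℕ) (hn : 2 ≤ n) (l : ℕ) (hl : 1 ≤ l) : ∃ C : ℝ,
    ∀ (K : Type) [Field K] [NumberField K] [IsGalois ℚ K], Module.finrank ℚ K = n →
      (Subgroup.center (K ≃ₐ[ℚ] K) = ⊥ ∨
        (∃ m : ℕ, 3 ≤ m ∧ Nonempty ((K ≃ₐ[ℚ] K) ≃* DihedralGroup m)) ∨
        ∀ N : Subgroup (K ≃ₐ[ℚ] K), N.Normal → (Nat.card N).Prime →
          Subgroup.closure {g : K ≃ₐ[ℚ] K | N ≤ Subgroup.zpowers g} ≠ ⊤) →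
      (Nat.card {c : ClassGroup (𝓞 K) // c ^ l = 1} : ℝ) ≤
        C * |(discr K : ℝ)| ^ (1 / 2 - 1 / (8 * n ^ 2 * ((48 * n ^ 2 + 1) * l) ^ n) : ℝ) := by
  obtain ⟨C, hC⟩ := mainC stark n hn l hl
  refine ⟨C, fun K _ _ _ hK h => hC K hK ?_⟩
  rcases h with h | ⟨m, hm, ⟨φ⟩⟩ | h
  · exact spread_of_center h
  · exact spread_of_notGenerated (notGenerated_dihedral hm φ)
  · exact spread_of_notGenerated h

end Pool.Agent.Results.MP_695920_nt.PointwiseTrivialCentre
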