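import Pool.Agent.U471.DQ.Cls2
import Pool.Agent.U471.DQ.Type

/-!
# The torsion in the class groups of the number fields generated by the roots of polynomials whose coefficients are all the
integers close to almost all values of real polynomials

From Mathlib: `Polynomial.eval`, `Polynomial.coeff`, `Polynomial.natDegree`: real polynomials; `MvPolynomial`: integer
polynomials in `r` variables; `NumberField`, `NumberField.discr`, `ClassGroup`, `𝓞 K`: number fields, their discriminants, their
class groups and their rings of integers; `IntermediateField.adjoin`: the generated field; `IsAlgebraic ℚ`: algebraic numbers.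

Method: Weyl's inequality without losses for all the coefficients at the same time (an inverse theorem, from the starting
files for the top coefficient), a discrete Fejer kernel for the integer parts of several functions, uniform distribution
of the vectors in residue classes with a power saving, high moments: many small primes have simple roots; the bound for the torsion
by the number of small primes which are norms is from the starting files (`LogSavingAllDegrees`).
-/

set_option autoImplicit false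

open scoped NumberField

namespace Pool.Agent.Results.MP_695920_nt.RealPolynomialFamilies

open Finset

/-- The polynomials `f 0, ..., f (r - 1)` are not on major arcs, at the scale `N` and with the parameter `R`: for every
integer vector `l ≠ 0` with all `|l i| ≤ R` there is `1 ≤ j ≤ d` such that the number
`∑ i, l i * (coefficient of f i at X ^ j)` has a distance of more than `R / N ^ j` from all the integers. -/
def Generic {r : ℕ} (d N : ℕ) (R : ℝ) (f : Fin r → Polynomial ℝ) : Prop :=
  ∀ l : Fin r → ℤ, l ≠ 0 → (∀ i, (|l i| : ℝ) ≤ R) → ∃ j : ℕ, 1 ≤ j ∧ j ≤ d ∧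
    ∀ b : ℤ, R / (N : ℝ) ^ j < |∑ i, (l i : ℝ) * (f i).coeff j - b|

/-- `α` has a finite irrationality exponent. -/
def FiniteType (α : ℝ) : Prop := ∃ (w : ℕ) (c : ℝ), 0 < c ∧ ∀ q : ℕ, 1 ≤ q → ∀ a : ℤ, c / (q : ℝ) ^ w ≤ |q * α - a|

/-- The number field `K` has the degree `n` and is generated by a number `α` with
`α ^ n + ∑ i, (A i (z 1, ..., z r) + g i) α ^ i = z 0`; the sum is over `0 ≤ i < n`. -/
def Member {n r : ℕ} (A : Fin n → MvPolynomial (Fin r) ℤ) (g : Fin n → ℤ) (z : Fin (r + 1) → ℤ) (K : Type) [Field K]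
    [NumberField K] : Prop :=
  Module.finrank ℚ K = n ∧ ∃ α : K, IntermediateField.adjoin ℚ {α} = ⊤ ∧
    α ^ n + ∑ i : Fin n, ((MvPolynomial.eval (fun j : Fin r => z j.succ) (A i) + g i : ℤ) : K) * α ^ (i : ℕ) = ((z 0 : ℤ) : K)

/-- **(1)** Let `r ≥ 0`, `d ≥ 1` and `n ≥ 2` be integers. There are `κ > 0` and `C` such that the following holds for all
`N, R ≥ 1`, for all real polynomials `f 0, ..., f r` of degree at most `d` which are not on major arcs (`Generic`) and
for all integer polynomials `A 0, ..., A (n - 1)` in `r` variables.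

All the integers `0 ≤ m < N` with at most `C N R ^ (- κ)` exceptions are such that for ALL integers `z i` with
`|z i - f i (m)| ≤ R ^ κ`, ALL integers `g i` with `|g i| ≤ R ^ κ`, ALL number fields `K` of degree `n` generated by a root `α`
of `α ^ n + ∑ i, (A i (z 1, ..., z r) + g i) α ^ i = z 0` and ALL `ℓ ≥ 1`: with `D = |disc K|`, the class group of `K` has at most
`C ℓ ^ n (1 + log R) ^ 4 (1 + log D) ^ (2 n + 1) D ^ (1 / 2) (D ^ (- 1 / (n (n - 1) ℓ)) + R ^ (- κ))` elements killed by `ℓ`.

**(2)** For some `β > 0`, (1) applies with `R = N ^ β` for all large `N` if every `f i` has a coefficient of `FiniteType` at some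
`X ^ j`, `1 ≤ j ≤ d`, for which the coefficients of all the other `f i'` at `X ^ j` are zero (for `r = 0`: one such coefficient).
**(3)** Irrational algebraic numbers are of `FiniteType`. -/
theorem result :
    (∀ r d n : ℕ, 1 ≤ d → 2 ≤ n → ∃ κ C : ℝ, 0 < κ ∧ 0 < C ∧
      ∀ (N : ℕ) (R : ℝ) (f : Fin (r + 1) → Polynomial ℝ), 1 ≤ N → 1 ≤ R → (∀ i, (f i).natDegree ≤ d) → Generic d N R f →
      ∀ A : Fin n → MvPolynomial (Fin r) ℤ,
      ∃ E : Finset ℕ, (E.card : ℝ) ≤ C * (N * R ^ (-κ)) ∧ ∀ m : ℕ, m < N → m ∉ E →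
        ∀ z : Fin (r + 1) → ℤ, (∀ i, |(z i : ℝ) - (f i).eval (m : ℝ)| ≤ R ^ κ) →
        ∀ g : Fin n → ℤ, (∀ i, (|g i| : ℝ) ≤ R ^ κ) →
        ∀ (K : Type) [Field K] [NumberField K], Member A g z K → ∀ ℓ : ℕ, 1 ≤ ℓ →
          (Nat.card {x : ClassGroup (𝓞 K) // x ^ ℓ = 1} : ℝ) ≤
            C * ℓ ^ n * (1 + Real.log R) ^ 4 * (1 + Real.log |(NumberField.discr K : ℝ)|) ^ (2 * n + 1) *
            (√|(NumberField.discr K : ℝ)| * (|(NumberField.discr K : ℝ)| ^ (-(1 / ((n * (n - 1) * ℓ : ℕ) : ℝ))) + R ^ (-κ)))) ∧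
    (∀ (r d : ℕ) (f : Fin r → Polynomial ℝ),
      (∀ i, ∃ j, 1 ≤ j ∧ j ≤ d ∧ FiniteType ((f i).coeff j) ∧ ∀ i', i' ≠ i → (f i').coeff j = 0) →
      ∃ β : ℝ, 0 < β ∧ ∃ N₀ : ℕ, ∀ N : ℕ, N₀ ≤ N → Generic d N ((N : ℝ) ^ β) f) ∧
    (∀ α : ℝ, Irrational α → IsAlgebraic ℚ α → FiniteType α) := by
  refine ⟨?_, ?_, fun α h h' => Pool.Agent.U471.DQ.finType_alg h h'⟩
  · intro r d n hd hn
    obtain ⟨κ, C, h1, _, h3, H⟩ := Pool.Agent.U471.DQ.near_tor r d n hd hn
    refine ⟨κ, C, h1, by linarith, ?_⟩
    intro N R f hN hR hf hgen A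
    obtain ⟨E, _, hE2, hE3⟩ := H N R f hN hR hf hgen A
    refine ⟨E, hE2, fun m hm hmE z hz g hg K _ _ hK ℓ hℓ => ?_⟩
    refine hE3 m (mem_range.2 hm) hmE z hz g hg K ?_ ℓ hℓ
    obtain ⟨h4, α, h5, h6⟩ := hK
    refine ⟨h4, α, h5, ?_⟩
    rw [← h6]
    unfold Pool.Agent.U471.DQ.Mon Pool.Agent.U471.DQ.cof
    simp [Fin.tail_def]
  · intro r d f h
    obtain ⟨β, h1, _, N₀, h3⟩ := Pool.Agent.U471.DQ.gen_of_type d f h
    exact ⟨β, h1, N₀, h3⟩

end Pool.Agent.Results.MP_695920_nt.RealPolynomialFamilies
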